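import Pool.Agent.H93.ET.Defs

/-!
# The exact growth threshold: the segment lemma (SEG)
-/

set_option autoImplicit false

namespace Pool.Agent.H51.ET

open MeasureTheory AddCircle Finset Pool.Agent.H87.Synth Pool.Agent.H85.SC Pool.Agent.H93.ET

lemma trap_one {A B : ℕ} (hAB : A < B) {t : ℤ} (h : |t| ≤ A) : trap A B t = 1 := by
  unfold trap
  have h1 : |(t : ℝ)| ≤ A := by
    rw [← Int.cast_abs]
    exact_mod_cast h
  have h2 : (A : ℝ) < B := by exact_mod_cast hAB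
  have h3 : 1 ≤ ((B : ℝ) - |(t : ℝ)|) / (B - A) := by
    rw [one_le_div (by linarith)]
    linarith
  rw [min_eq_left h3]
  norm_num

lemma trap_zero {A B : ℕ} (hAB : A < B) {t : ℤ} (h : (B : ℤ) ≤ |t|) : trap A B t = 0 := by
  unfold trap
  have h1 : (B : ℝ) ≤ |(t : ℝ)| := by
    rw [← Int.cast_abs]
    exact_mod_cast h
  have h2 : (A : ℝ) < B := by exact_mod_cast hAB
  have h3 : ((B : ℝ) - |(t : ℝ)|) / (B - A) ≤ 0 :=
    div_nonpos_of_nonpos_of_nonneg (by linarith) (by linarith)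
  exact max_eq_left ((min_le_right _ _).trans h3)

/-- one window -/
lemma seg_window (W : Finset ℤ) (l : ℝ) (hl : 0 < l) (hW : (W.card : ℝ) = l) (a : ℤ → ℝ) {S : ℝ}
    (hS : 0 < S) (ha : ∀ t ∈ W, 2 * S / l ≤ |a t|) :
    ∃ T : Finset ℤ, ∃ x : ℤ, ∃ c : ℝ, T ⊆ W ∧ x ∈ T ∧ c ≠ 0 ∧ (∀ t ∈ T, a t ≠ 0) ∧
      ∑ t ∈ T.erase x, |a t| + |c| = S ∧
      |c - a x| ≤ Real.sqrt (2 / l) * Real.sqrt (∑ t ∈ W, a t ^ 2) := by
  classical
  obtain ⟨A, hA⟩ : ∃ A : ℝ, A = ∑ t ∈ W, a t ^ 2 := ⟨_, rfl⟩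
  have hWne : W.Nonempty := by
    rw [← Finset.card_pos]
    have : (0 : ℝ) < W.card := by rw [hW]; exact hl
    exact_mod_cast this
  have ha0 : ∀ t ∈ W, 0 < |a t| := fun t ht => lt_of_lt_of_le (by positivity) (ha t ht)
  have hA0 : 0 < A := by
    rw [hA]
    refine Finset.sum_pos (fun t ht => ?_) hWne
    have := ha0 t ht
    rw [← sq_abs]
    positivity
  obtain ⟨τ, hτ⟩ : ∃ τ : ℝ, τ = Real.sqrt (2 / l) * Real.sqrt A := ⟨_, rfl⟩
  have hτ0 : 0 < τ := by rw [hτ]; positivity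
  have hτ2 : τ ^ 2 = 2 / l * A := by
    rw [hτ, mul_pow, Real.sq_sqrt (by positivity), Real.sq_sqrt hA0.le]
  obtain ⟨L, hL⟩ : ∃ L : Finset ℤ, L = W.filter (fun t => |a t| ≤ τ) := ⟨_, rfl⟩
  have hcard : l / 2 ≤ (L.card : ℝ) := by
    have h1 : ((W.filter (fun t => ¬ |a t| ≤ τ)).card : ℝ) * τ ^ 2 ≤ A := by
      rw [← nsmul_eq_mul, ← Finset.sum_const, hA]
      calc ∑ _t ∈ W.filter (fun t => ¬ |a t| ≤ τ), τ ^ 2
          ≤ ∑ t ∈ W.filter (fun t => ¬ |a t| ≤ τ), a t ^ 2 := by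
            refine Finset.sum_le_sum fun t ht => ?_
            have h2 := (Finset.mem_filter.1 ht).2
            rw [← sq_abs (a t)]
            exact pow_le_pow_left₀ hτ0.le (not_le.1 h2).le 2
        _ ≤ ∑ t ∈ W, a t ^ 2 := Finset.sum_le_sum_of_subset_of_nonneg (Finset.filter_subset _ _)
            fun _ _ _ => sq_nonneg _
    have h2 : ((W.filter (fun t => ¬ |a t| ≤ τ)).card : ℝ) ≤ l / 2 := by
      rw [hτ2] at h1
      by_contra h3
      have h4 := mul_lt_mul_of_pos_right (not_le.1 h3) (by positivity : 0 < 2 / l * A)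
      have h5 : l / 2 * (2 / l * A) = A := by field_simp
      linarith
    have h3 : L.card + (W.filter (fun t => ¬ |a t| ≤ τ)).card = W.card := by
      rw [hL]
      exact Finset.card_filter_add_card_filter_not _
    have h4 : (L.card : ℝ) + ((W.filter (fun t => ¬ |a t| ≤ τ)).card : ℝ) = W.card := by
      exact_mod_cast h3
    linarith
  have hLW : L ⊆ W := by rw [hL]; exact Finset.filter_subset _ _
  have hLS : S ≤ ∑ t ∈ L, |a t| := by
    calc S = l / 2 * (2 * S / l) := by field_simp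
      _ ≤ (L.card : ℝ) * (2 * S / l) := mul_le_mul_of_nonneg_right hcard (by positivity)
      _ = ∑ _t ∈ L, 2 * S / l := by rw [Finset.sum_const, nsmul_eq_mul]
      _ ≤ ∑ t ∈ L, |a t| := Finset.sum_le_sum fun t ht => ha t (hLW ht)
  obtain ⟨T, hT, hTmin⟩ := (L.powerset.filter (fun T => S ≤ ∑ t ∈ T, |a t|)).exists_min_image
    Finset.card ⟨L, Finset.mem_filter.2 ⟨Finset.mem_powerset_self L, hLS⟩⟩
  obtain ⟨hT1, hT2⟩ := Finset.mem_filter.1 hT
  have hTL := Finset.mem_powerset.1 hT1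
  have hTne : T.Nonempty := by
    rw [Finset.nonempty_iff_ne_empty]
    rintro rfl
    rw [Finset.sum_empty] at hT2
    linarith
  obtain ⟨x, hx⟩ := hTne
  have hlt : ∑ t ∈ T.erase x, |a t| < S := by
    by_contra h
    have h1 := hTmin (T.erase x) (Finset.mem_filter.2
      ⟨Finset.mem_powerset.2 ((Finset.erase_subset x T).trans hTL), not_lt.1 h⟩)
    have h2 := Finset.card_erase_lt_of_mem hx
    omega
  have hsum := Finset.add_sum_erase T (fun t => |a t|) hx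
  have hx0 := ha0 x (hLW (hTL hx))
  have hxτ : |a x| ≤ τ := by
    have := hTL hx
    rw [hL] at this
    exact (Finset.mem_filter.1 this).2
  obtain ⟨r, hr⟩ : ∃ r : ℝ, r = S - ∑ t ∈ T.erase x, |a t| := ⟨_, rfl⟩
  have hr0 : 0 < r := by rw [hr]; linarith
  have hr1 : r ≤ |a x| := by
    rw [hr]
    linarith
  refine ⟨T, x, if 0 < a x then r else -r, hTL.trans hLW, hx, ?_, fun t ht => ?_, ?_, ?_⟩
  · split_ifs
    · exact hr0.ne'
    · exact (neg_neg_iff_pos.2 hr0).ne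
  · exact abs_pos.1 (ha0 t (hLW (hTL ht)))
  · have h1 : |if 0 < a x then r else -r| = r := by
      split_ifs
      · exact abs_of_pos hr0
      · rw [abs_neg]
        exact abs_of_pos hr0
    rw [h1, hr]
    ring
  · rw [← hA, ← hτ]
    refine le_trans ?_ hxτ
    split_ifs with h
    · rw [abs_of_pos h] at hr1 ⊢
      rw [abs_le]
      constructor <;> linarith
    · have h2 : a x ≤ 0 := not_lt.1 h
      rw [abs_of_nonpos h2] at hr1 ⊢
      rw [abs_le]
      constructor <;> linarith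

lemma seg_tail {u : ℕ → ℝ} (hu : Summable u) {δ : ℝ} (hδ : 0 < δ) :
    ∃ M, 2 ≤ M ∧ ∀ m0 m1, M ≤ m0 → ∑ m ∈ Finset.Ico m0 m1, u m ≤ δ := by
  obtain ⟨s, hs⟩ := summable_iff_vanishing_norm.1 hu δ hδ
  refine ⟨max 2 (s.sup id + 1), le_max_left _ _, fun m0 m1 hm => ?_⟩
  have hdis : Disjoint (Finset.Ico m0 m1) s := by
    rw [Finset.disjoint_left]
    intro r hr hrt
    have h1 : r ≤ s.sup id := Finset.le_sup (f := id) hrt
    have h2 := (Finset.mem_Ico.1 hr).1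
    have h3 := (le_max_right 2 (s.sup id + 1)).trans hm
    omega
  exact (Real.le_norm_self _).trans (hs _ hdis).le

theorem seg (h1 : T_KKL) (h2 : T_CUT) : T_SEG := by
  classical
  intro b hb hsum S ε hS hε
  obtain ⟨l, hl⟩ : ∃ l : ℕ → ℝ, ∀ m, l m = (b (m + 1) : ℝ) - b m := ⟨_, fun _ => rfl⟩
  have hl0 : ∀ m, 0 < l m := by
    intro m
    have h3 : (b m : ℝ) < b (m + 1) := by exact_mod_cast hb (Nat.lt_succ_self m)
    rw [hl]
    linarith
  obtain ⟨δ, hδ⟩ : ∃ δ : ℝ, δ = min 1 ((ε / (600 * S)) ^ 2) := ⟨_, rfl⟩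
  have hδ0 : 0 < δ := by rw [hδ]; exact lt_min one_pos (by positivity)
  obtain ⟨M, hM2, hM⟩ := seg_tail hsum hδ0
  refine ⟨M, fun m0 m1 hm0 hm01 => ?_⟩
  have hD := hM m0 m1 hm0
  simp only [← hl] at hD
  obtain ⟨D, hDd⟩ : ∃ D : ℝ, D = ∑ m ∈ Finset.Ico m0 m1, 1 / l m := ⟨_, rfl⟩
  rw [← hDd] at hD
  have hD0 : 0 < D := by
    rw [hDd]
    exact Finset.sum_pos (fun m _ => by have := hl0 m; positivity)
      ⟨m0, Finset.mem_Ico.2 ⟨le_rfl, hm01⟩⟩
  obtain ⟨B, hB⟩ : ∃ B : ℝ, B = 2 * S * Real.sqrt D := ⟨_, rfl⟩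
  have hB0 : 0 < B := by rw [hB]; positivity
  obtain ⟨W, hW⟩ : ∃ W : ℕ → Finset ℤ, ∀ m, W m = Finset.Ico (b m : ℤ) (b (m + 1)) :=
    ⟨_, fun _ => rfl⟩
  have hWc : ∀ m, ((W m).card : ℝ) = l m := by
    intro m
    have h3 : b m ≤ b (m + 1) := (hb (Nat.lt_succ_self m)).le
    rw [hW, Int.card_Ico, hl]
    have h4 : ((b (m + 1) : ℤ) - b m).toNat = b (m + 1) - b m := by omega
    rw [h4, Nat.cast_sub h3]
  have hWd : ∀ m m' t, t ∈ W m → t ∈ W m' → m = m' := by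
    intro m m' t ht ht'
    rw [hW, Finset.mem_Ico] at ht ht'
    by_contra hne
    rcases Nat.lt_or_gt_of_ne hne with h | h
    · have h3 : b (m + 1) ≤ b m' := hb.monotone (by omega)
      omega
    · have h3 : b (m' + 1) ≤ b m := hb.monotone (by omega)
      omega
  have hWb : ∀ m ∈ Finset.Ico m0 m1, ∀ t ∈ W m, (b m0 : ℤ) ≤ t ∧ t < b m1 := by
    intro m hm t ht
    obtain ⟨h3, h4⟩ := Finset.mem_Ico.1 hm
    rw [hW, Finset.mem_Ico] at ht
    have h5 : b m0 ≤ b m := hb.monotone h3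
    have h6 : b (m + 1) ≤ b m1 := hb.monotone h4
    omega
  have hbm0 : 2 ≤ b m0 := by
    have := hb.le_apply (x := m0)
    omega
  have hbm1 : b m0 < b m1 := hb hm01
  obtain ⟨Q, hQ⟩ : ∃ Q : Finset ℤ, Q = (Finset.Ico m0 m1).biUnion W := ⟨_, rfl⟩
  have hQs : ∀ f : ℤ → ℝ, ∑ t ∈ Q, f t = ∑ m ∈ Finset.Ico m0 m1, ∑ t ∈ W m, f t := by
    intro f
    rw [hQ, Finset.sum_biUnion]
    intro m _ m' _ hmm
    rw [Function.onFun, Finset.disjoint_left]
    intro t ht ht'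
    exact hmm (hWd m m' t ht ht')
  obtain ⟨β, hβ⟩ : ∃ β : ℤ → ℝ, ∀ t, β t =
      ∑ m ∈ Finset.Ico m0 m1, if t ∈ W m then 2 * S / l m else 0 := ⟨_, fun _ => rfl⟩
  have hβW : ∀ m ∈ Finset.Ico m0 m1, ∀ t ∈ W m, β t = 2 * S / l m := by
    intro m hm t ht
    rw [hβ, Finset.sum_eq_single m, if_pos ht]
    · intro m' _ hne
      rw [if_neg]
      intro h
      exact hne (hWd m' m t h ht)
    · intro h
      exact absurd hm h
  have hQpos : ∀ t ∈ Q, 0 < t := by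
    intro t ht
    rw [hQ, Finset.mem_biUnion] at ht
    obtain ⟨m, hm, ht⟩ := ht
    have := (hWb m hm t ht).1
    omega
  have hβ0 : ∀ t ∈ Q, 0 ≤ β t := by
    intro t _
    rw [hβ]
    refine Finset.sum_nonneg fun m _ => ?_
    split_ifs
    · have := hl0 m
      positivity
    · exact le_rfl
  have hβs : ∑ t ∈ Q, β t ^ 2 ≤ B ^ 2 := by
    rw [hQs]
    have h3 : ∀ m ∈ Finset.Ico m0 m1, ∑ t ∈ W m, β t ^ 2 = 4 * S ^ 2 * (1 / l m) := by
      intro m hm
      have h4 : ∑ t ∈ W m, β t ^ 2 = ∑ _t ∈ W m, (2 * S / l m) ^ 2 :=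
        Finset.sum_congr rfl fun t ht => by rw [hβW m hm t ht]
      have h5 := hl0 m
      rw [h4, Finset.sum_const, nsmul_eq_mul, hWc]
      field_simp
      ring
    rw [Finset.sum_congr rfl h3, ← Finset.mul_sum, ← hDd, hB, mul_pow, mul_pow,
      Real.sq_sqrt hD0.le]
    apply le_of_eq
    ring
  obtain ⟨H, hHc, hHb, hHβ, hHs⟩ := h1 Q β B hQpos hβ0 hB0 hβs
  obtain ⟨a, ha⟩ : ∃ a : ℤ → ℝ, ∀ t, a t = ∫ x, H x * cs t x ∂haarAddCircle := ⟨_, fun _ => rfl⟩
  simp only [← ha] at hHβ hHs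
  obtain ⟨g0, hg0⟩ : ∃ g0 : ℤ → ℝ, ∀ t, g0 t =
      trap (b m1) (2 * b m1) t * a t - trap (b m0 / 2) (b m0) t * a t := ⟨_, fun _ => rfl⟩
  have hA1 : b m1 < 2 * b m1 := by omega
  have hA2 : b m0 / 2 < b m0 := by omega
  have hg0W : ∀ m ∈ Finset.Ico m0 m1, ∀ t ∈ W m, g0 t = a t := by
    intro m hm t ht
    obtain ⟨h3, h4⟩ := hWb m hm t ht
    have h5 : |t| = t := abs_of_nonneg (by omega)
    rw [hg0, trap_one hA1 (by rw [h5]; omega), trap_zero hA2 (by rw [h5]; omega)]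
    ring
  have hg0supp : ∀ t, g0 t ≠ 0 → (b m0 : ℤ) ≤ 2 * |t| ∧ |t| < 2 * (b m1 : ℤ) := by
    intro t ht
    constructor
    · by_contra h
      apply ht
      rw [hg0, trap_one hA1 (by omega), trap_one hA2 (by omega)]
      ring
    · by_contra h
      apply ht
      rw [hg0, trap_zero hA1 (by push_cast; omega), trap_zero hA2 (by omega)]
      ring
  -- the windows
  have hwin : ∀ m ∈ Finset.Ico m0 m1, ∃ T : Finset ℤ, ∃ x : ℤ, ∃ c : ℝ, T ⊆ W m ∧ x ∈ T ∧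
      c ≠ 0 ∧ (∀ t ∈ T, a t ≠ 0) ∧ ∑ t ∈ T.erase x, |a t| + |c| = S ∧
      |c - a x| ≤ Real.sqrt (2 / l m) * Real.sqrt (∑ t ∈ W m, a t ^ 2) := by
    intro m hm
    refine seg_window (W m) (l m) (hl0 m) (hWc m) a hS fun t ht => ?_
    rw [← hβW m hm t ht]
    exact hHβ t (by rw [hQ, Finset.mem_biUnion]; exact ⟨m, hm, ht⟩)
  choose! T x c hT1 hT2 hT3 hT4 hT5 hT6 using hwin
  have hxW : ∀ m ∈ Finset.Ico m0 m1, x m ∈ W m := fun m hm => hT1 m hm (hT2 m hm)
  obtain ⟨g, hg⟩ : ∃ g : ℤ → ℝ, ∀ t, g t = g0 t +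
      ∑ m ∈ Finset.Ico m0 m1, if t = x m then c m - a (x m) else 0 := ⟨_, fun _ => rfl⟩
  have hgx : ∀ m ∈ Finset.Ico m0 m1, g (x m) = c m := by
    intro m hm
    rw [hg, Finset.sum_eq_single m, if_pos rfl, hg0W m hm _ (hxW m hm)]
    · ring
    · intro m' hm' hne
      rw [if_neg]
      intro h
      have h3 := hxW m' hm'
      rw [← h] at h3
      exact hne (hWd m' m _ h3 (hxW m hm))
    · intro h
      exact absurd hm h
  have hgn : ∀ t, (∀ m ∈ Finset.Ico m0 m1, t ≠ x m) → g t = g0 t := by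
    intro t ht
    rw [hg, Finset.sum_eq_zero fun m hm => if_neg (ht m hm), add_zero]
  have hgT : ∀ m ∈ Finset.Ico m0 m1, ∀ t ∈ (T m).erase (x m), g t = a t := by
    intro m hm t ht
    obtain ⟨h3, h4⟩ := Finset.mem_erase.1 ht
    have h5 := hT1 m hm h4
    rw [hgn t, hg0W m hm t h5]
    intro m' hm' h
    have h6 := hxW m' hm'
    rw [← h] at h6
    have h7 := hWd m' m t h6 h5
    rw [h7] at h
    exact h3 h
  refine ⟨g, fun t ht => ?_, fun w hw => ?_, fun m hm hm' => ?_⟩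
  · by_cases h : ∀ m ∈ Finset.Ico m0 m1, t ≠ x m
    · rw [hgn t h] at ht
      exact hg0supp t ht
    · push Not at h
      obtain ⟨m, hm, rfl⟩ := h
      obtain ⟨h3, h4⟩ := hWb m hm _ (hxW m hm)
      have h5 : |x m| = x m := abs_of_nonneg (by omega)
      rw [h5]
      constructor <;> omega
  · obtain ⟨I, hI⟩ : ∃ I : Finset ℤ, I = Finset.Ioo (-(2 * (b m1 : ℤ))) (2 * (b m1 : ℤ)) :=
      ⟨_, rfl⟩
    rw [← hI]
    have hxI : ∀ m ∈ Finset.Ico m0 m1, x m ∈ I := by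
      intro m hm
      obtain ⟨h3, h4⟩ := hWb m hm _ (hxW m hm)
      rw [hI, Finset.mem_Ioo]
      constructor <;> omega
    have hw0 : w ≠ 0 := by
      rintro rfl
      norm_num at hw
    have e1 : ∑ t ∈ I, (g t : ℂ) * w ^ t =
        ∑ t ∈ I, ((trap (b m1) (2 * b m1) t * a t : ℝ) : ℂ) * w ^ t -
        ∑ t ∈ I, ((trap (b m0 / 2) (b m0) t * a t : ℝ) : ℂ) * w ^ t +
        ∑ m ∈ Finset.Ico m0 m1, ((c m - a (x m) : ℝ) : ℂ) * w ^ (x m) := by
      have e2 : ∀ t ∈ I, (g t : ℂ) * w ^ t =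
          ((trap (b m1) (2 * b m1) t * a t : ℝ) : ℂ) * w ^ t -
          ((trap (b m0 / 2) (b m0) t * a t : ℝ) : ℂ) * w ^ t +
          ∑ m ∈ Finset.Ico m0 m1, if t = x m then ((c m - a (x m) : ℝ) : ℂ) * w ^ t else 0 := by
        intro t _
        rw [hg, hg0]
        have e3 : ∑ m ∈ Finset.Ico m0 m1, (if t = x m then ((c m - a (x m) : ℝ) : ℂ) * w ^ t
            else 0) =
            ((∑ m ∈ Finset.Ico m0 m1, if t = x m then c m - a (x m) else 0 : ℝ) : ℂ) * w ^ t := by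
          rw [Complex.ofReal_sum, Finset.sum_mul]
          refine Finset.sum_congr rfl fun m _ => ?_
          split_ifs
          · rfl
          · rw [Complex.ofReal_zero, zero_mul]
        rw [e3, Complex.ofReal_add, Complex.ofReal_sub]
        ring
      rw [Finset.sum_congr rfl e2, Finset.sum_add_distrib, Finset.sum_sub_distrib,
        Finset.sum_comm]
      congr 1
      refine Finset.sum_congr rfl fun m hm => ?_
      rw [Finset.sum_ite_eq' I (x m) (fun t => ((c m - a (x m) : ℝ) : ℂ) * w ^ t),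
        if_pos (hxI m hm)]
    have n1 : ‖∑ t ∈ I, ((trap (b m1) (2 * b m1) t * a t : ℝ) : ℂ) * w ^ t‖ ≤ 3 * (38 * B) := by
      have h3 := h2 (b m1) (2 * b m1) (by omega) hA1 (by omega) H (38 * B) hHc hHb (2 * b m1)
        le_rfl w hw
      simp only [← ha] at h3
      push_cast at h3 ⊢
      rw [hI]
      exact h3
    have n2 : ‖∑ t ∈ I, ((trap (b m0 / 2) (b m0) t * a t : ℝ) : ℂ) * w ^ t‖ ≤ 3 * (38 * B) := by
      have h3 := h2 (b m0 / 2) (b m0) (by omega) hA2 (by omega) H (38 * B) hHc hHb (2 * b m1)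
        (by omega) w hw
      simp only [← ha] at h3
      push_cast at h3 ⊢
      rw [hI]
      exact h3
    have n3 : ‖∑ m ∈ Finset.Ico m0 m1, ((c m - a (x m) : ℝ) : ℂ) * w ^ (x m)‖ ≤ 57 * B := by
      calc ‖∑ m ∈ Finset.Ico m0 m1, ((c m - a (x m) : ℝ) : ℂ) * w ^ (x m)‖
          ≤ ∑ m ∈ Finset.Ico m0 m1, ‖((c m - a (x m) : ℝ) : ℂ) * w ^ (x m)‖ := norm_sum_le _ _
        _ ≤ ∑ m ∈ Finset.Ico m0 m1,
            Real.sqrt (2 / l m) * Real.sqrt (∑ t ∈ W m, a t ^ 2) := by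
            refine Finset.sum_le_sum fun m hm => ?_
            rw [norm_mul, norm_zpow, hw, one_zpow, mul_one, Complex.norm_real, Real.norm_eq_abs]
            exact hT6 m hm
        _ ≤ Real.sqrt (∑ m ∈ Finset.Ico m0 m1, 2 / l m) *
            Real.sqrt (∑ m ∈ Finset.Ico m0 m1, ∑ t ∈ W m, a t ^ 2) :=
            Real.sum_sqrt_mul_sqrt_le _ (fun m => by have := hl0 m; positivity)
              (fun m => Finset.sum_nonneg fun _ _ => sq_nonneg _)
        _ ≤ Real.sqrt (2 * 1) * (38 * B) := by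
            refine mul_le_mul (Real.sqrt_le_sqrt ?_) ?_ (Real.sqrt_nonneg _)
              (Real.sqrt_nonneg _)
            · have h3 : ∑ m ∈ Finset.Ico m0 m1, 2 / l m = 2 * D := by
                rw [hDd, Finset.mul_sum]
                exact Finset.sum_congr rfl fun m _ => by ring
              rw [h3]
              have h4 : D ≤ 1 := hD.trans (by rw [hδ]; exact min_le_left _ _)
              linarith
            · rw [← hQs]
              exact Real.sqrt_le_iff.2 ⟨by positivity, hHs⟩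
        _ ≤ (3 / 2) * (38 * B) := by
            refine mul_le_mul_of_nonneg_right ?_ (by positivity)
            rw [mul_one]
            exact Real.sqrt_le_iff.2 ⟨by norm_num, by norm_num⟩
        _ = 57 * B := by ring
    have hBε : 300 * B ≤ ε := by
      have h3 : Real.sqrt D ≤ ε / (600 * S) := by
        refine Real.sqrt_le_iff.2 ⟨by positivity, ?_⟩
        exact hD.trans (by rw [hδ]; exact min_le_right _ _)
      rw [hB]
      rw [le_div_iff₀ (by positivity)] at h3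
      linarith
    rw [e1]
    have n4 := norm_add_le (∑ t ∈ I, ((trap (b m1) (2 * b m1) t * a t : ℝ) : ℂ) * w ^ t -
        ∑ t ∈ I, ((trap (b m0 / 2) (b m0) t * a t : ℝ) : ℂ) * w ^ t)
        (∑ m ∈ Finset.Ico m0 m1, ((c m - a (x m) : ℝ) : ℂ) * w ^ (x m))
    have n5 := norm_sub_le (∑ t ∈ I, ((trap (b m1) (2 * b m1) t * a t : ℝ) : ℂ) * w ^ t)
        (∑ t ∈ I, ((trap (b m0 / 2) (b m0) t * a t : ℝ) : ℂ) * w ^ t)
    linarith
  · have hmI : m ∈ Finset.Ico m0 m1 := Finset.mem_Ico.2 ⟨hm, hm'⟩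
    refine ⟨T m, ?_, fun t ht => ?_, ?_⟩
    · rw [← hW]
      exact hT1 m hmI
    · by_cases h : t = x m
      · rw [h, hgx m hmI]
        exact hT3 m hmI
      · rw [hgT m hmI t (Finset.mem_erase.2 ⟨h, ht⟩)]
        exact hT4 m hmI t ht
    · rw [← Finset.add_sum_erase (T m) (fun t => |g t|) (hT2 m hmI)]
      rw [hgx m hmI, Finset.sum_congr rfl fun t ht => by rw [hgT m hmI t ht], add_comm]
      exact hT5 m hmI

end Pool.Agent.H51.ET
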