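import Pool.Agent.H93.ET.Defs

/-!
# The exact growth threshold: the size of the classes (DIA)
-/

set_option autoImplicit false

namespace Pool.Agent.H51.ET

open MeasureTheory AddCircle Finset Pool.Agent.H87.Synth Pool.Agent.H85.SC Pool.Agent.H93.ET

lemma dia_fin {d : ℕ → ℝ} (hd : Monotone d) {n : ℕ} {lo z z' : ℤ} (h0 : (n : ℤ) ≤ lo)
    (h1 : lo ≤ z) (h2 : (z : ℝ) - lo ≤ d n) (h3 : lo ≤ z') (h4 : (z' : ℝ) - lo ≤ d n) :
    |(z.natAbs : ℝ) - z'.natAbs| ≤ d (min z.natAbs z'.natAbs) := by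
  have hz0 : (z.natAbs : ℤ) = z := by omega
  have hz0' : (z'.natAbs : ℤ) = z' := by omega
  have e1 : (z.natAbs : ℝ) = z := by
    have h9 := congrArg (Int.cast (R := ℝ)) hz0
    rwa [Int.cast_natCast] at h9
  have e2 : (z'.natAbs : ℝ) = z' := by
    have h9 := congrArg (Int.cast (R := ℝ)) hz0'
    rwa [Int.cast_natCast] at h9
  have h5 : d n ≤ d (min z.natAbs z'.natAbs) := hd (by
    rw [le_min_iff]
    constructor <;> omega)
  have h6 : (lo : ℝ) ≤ z := by exact_mod_cast h1
  have h7 : (lo : ℝ) ≤ z' := by exact_mod_cast h3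
  rw [e1, e2, abs_le]
  constructor <;> linarith

theorem dia (h : T_PNT) : T_DIA := by
  intro d hd D c z hz z' hz'
  obtain ⟨hP1, -, -, -, -, hP6⟩ := h d D
  have hjj : ∀ s, 0 ≤ jj s ∧ jj s ≤ 1 := by
    intro s
    cases s <;> simp [jj]
  have hiA : ∀ x, 0 ≤ iA x ∧ iA x ≤ 1 := by
    intro x
    unfold iA
    split_ifs <;> simp
  have hiE : ∀ x, 0 ≤ iE x ∧ iE x ≤ 1 := by
    intro x
    unfold iE
    split_ifs <;> simp
  have hpt : ∀ (k : ℕ) (t i : ℤ) (s : Bool), 0 ≤ i → i ≤ 1 → 12 * t ≤ pt k t i s ∧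
      pt k t i s < 12 * (t + 1) := by
    intro k t i s h1 h2
    obtain ⟨h3, h4⟩ := hjj s
    unfold pt
    omega
  have hwin : ∀ (k m : ℕ) (s : Bool) (z : ℤ), D.mu k ≤ m → m < D.mu (k + 1) →
      (z ∈ D.AB k m s ∨ z ∈ D.EB k m s) →
      12 * (D.b m : ℤ) ≤ z ∧ z < 12 * (D.b (m + 1) : ℤ) := by
    intro k m s z h1 h2 h3
    have hT := (D.hT k m h1 h2).1
    rcases h3 with h3 | h3
    · obtain ⟨t, ht, rfl⟩ := Finset.mem_image.1 h3
      obtain ⟨h4, h5⟩ := Finset.mem_Ico.1 (hT ht)
      obtain ⟨h6, h7⟩ := hpt k t (iA (D.g k t)) s (hiA _).1 (hiA _).2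
      constructor <;> omega
    · obtain ⟨t, ht, rfl⟩ := Finset.mem_image.1 h3
      obtain ⟨h4, h5⟩ := Finset.mem_Ico.1 (hT ht)
      obtain ⟨h6, h7⟩ := hpt k t (iE (D.g k t)) s (hiE _).1 (hiE _).2
      constructor <;> omega
  have hbm : ∀ m, (D.b m : ℝ) ≤ D.b (m + 1) := by
    intro m
    exact_mod_cast (D.hb (Nat.lt_succ_self m)).le
  have hlen1 : ∀ m, 12 * ((D.b (m + 1) : ℝ) - D.b m) ≤ d (D.b m) := by
    intro m
    have h1 := D.len m
    have h2 := hbm (m + 1)
    linarith
  cases c with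
  | blk k m s =>
    simp only [cl] at hz hz'
    by_cases hm : D.mu k ≤ m ∧ m < D.mu (k + 1)
    · rw [if_pos hm] at hz hz'
      by_cases h0 : m = D.mu k
      · rw [if_pos h0] at hz hz'
        have key : ∀ z, z ∈ D.AB k m s ∪ D.EP k s →
            12 * (D.b m : ℤ) ≤ z ∧ (z : ℝ) - ((12 * (D.b m : ℤ) : ℤ) : ℝ) ≤ d (D.b m) := by
          intro z hz
          rcases Finset.mem_union.1 hz with h1 | h1
          · obtain ⟨h2, h3⟩ := hwin k m s z hm.1 hm.2 (Or.inl h1)
            refine ⟨h2, ?_⟩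
            have h4 : (z : ℝ) < 12 * (D.b (m + 1) : ℝ) := by exact_mod_cast h3
            have h5 := hlen1 m
            push_cast
            linarith
          · cases k with
            | zero =>
              unfold Dat.EP at h1
              rw [if_pos rfl] at h1
              exact absurd h1 (Finset.notMem_empty z)
            | succ k =>
              unfold Dat.EP at h1
              rw [if_neg (Nat.succ_ne_zero k), Nat.add_sub_cancel] at h1
              have h2 : z ∈ GW k (D.Z k) := (Finset.mem_filter.1 h1).1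
              obtain ⟨h3, h4⟩ := hP6 k z h2
              rw [← h0] at h3 h4
              refine ⟨h3, ?_⟩
              have h5 : (z : ℝ) < 12 * (D.b m : ℝ) + LL k := by exact_mod_cast h4
              have h6 := D.gad k
              have h7 : 0 < D.mu (k + 1) := lt_of_le_of_lt (Nat.zero_le _) (D.hmu (Nat.lt_succ_self k))
              have h8 := hbm (D.mu (k + 1) - 1)
              rw [Nat.sub_add_cancel h7] at h8
              have h9 : d (D.b (D.mu (k + 1) - 1)) ≤ d (D.b m) := hd (D.hb.monotone (by omega))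
              push_cast
              linarith
        obtain ⟨a1, a2⟩ := key z hz
        obtain ⟨a3, a4⟩ := key z' hz'
        exact dia_fin hd (n := D.b m) (by omega) a1 a2 a3 a4
      · rw [if_neg h0] at hz hz'
        have hm1 : D.mu k ≤ m - 1 := by omega
        have hm2 : m - 1 < D.mu (k + 1) := by omega
        have hmm : m - 1 + 1 = m := by omega
        have hmm2 : m - 1 + 2 = m + 1 := by omega
        have hlen := D.len (m - 1)
        rw [hmm2] at hlen
        have key : ∀ z, z ∈ D.AB k m s ∪ D.EB k (m - 1) s →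
            12 * (D.b (m - 1) : ℤ) ≤ z ∧
              (z : ℝ) - ((12 * (D.b (m - 1) : ℤ) : ℤ) : ℝ) ≤ d (D.b (m - 1)) := by
          intro z hz
          rcases Finset.mem_union.1 hz with h1 | h1
          · obtain ⟨h2, h3⟩ := hwin k m s z hm.1 hm.2 (Or.inl h1)
            have h6 : D.b (m - 1) ≤ D.b m := D.hb.monotone (by omega)
            refine ⟨by omega, ?_⟩
            have h4 : (z : ℝ) < 12 * (D.b (m + 1) : ℝ) := by exact_mod_cast h3
            push_cast
            linarith
          · obtain ⟨h2, h3⟩ := hwin k (m - 1) s z hm1 hm2 (Or.inr h1)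
            rw [hmm] at h3
            refine ⟨h2, ?_⟩
            have h4 : (z : ℝ) < 12 * (D.b m : ℝ) := by exact_mod_cast h3
            have h5 := hbm m
            push_cast
            linarith
        obtain ⟨a1, a2⟩ := key z hz
        obtain ⟨a3, a4⟩ := key z' hz'
        exact dia_fin hd (n := D.b (m - 1)) (by omega) a1 a2 a3 a4
    · rw [if_neg hm] at hz
      exact absurd hz (Finset.notMem_empty z)
  | gad k s =>
    simp only [cl] at hz hz'
    have h7 : D.mu k < D.mu (k + 1) := D.hmu (Nat.lt_succ_self k)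
    have hmm : D.mu (k + 1) - 1 + 1 = D.mu (k + 1) := by omega
    have hgad := D.gad k
    have key : ∀ z, z ∈ GA k (D.Z k) (sg s) ∪ D.EB k (D.mu (k + 1) - 1) s →
        12 * (D.b (D.mu (k + 1) - 1) : ℤ) ≤ z ∧
          (z : ℝ) - ((12 * (D.b (D.mu (k + 1) - 1) : ℤ) : ℤ) : ℝ) ≤
            d (D.b (D.mu (k + 1) - 1)) := by
      intro z hz
      rcases Finset.mem_union.1 hz with h1 | h1
      · have h2 : z ∈ GW k (D.Z k) := (Finset.mem_filter.1 h1).1
        obtain ⟨h3, h4⟩ := hP6 k z h2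
        have h6 : D.b (D.mu (k + 1) - 1) ≤ D.b (D.mu (k + 1)) := D.hb.monotone (by omega)
        refine ⟨by omega, ?_⟩
        have h5 : (z : ℝ) < 12 * (D.b (D.mu (k + 1)) : ℝ) + LL k := by exact_mod_cast h4
        push_cast
        linarith
      · obtain ⟨h2, h3⟩ := hwin k (D.mu (k + 1) - 1) s z (by omega) (by omega) (Or.inr h1)
        rw [hmm] at h3
        refine ⟨h2, ?_⟩
        have h4 : (z : ℝ) < 12 * (D.b (D.mu (k + 1)) : ℝ) := by exact_mod_cast h3
        have h5 : (0 : ℝ) ≤ LL k := Nat.cast_nonneg _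
        push_cast
        linarith
    obtain ⟨a1, a2⟩ := key z hz
    obtain ⟨a3, a4⟩ := key z' hz'
    exact dia_fin hd (n := D.b (D.mu (k + 1) - 1)) (by omega) a1 a2 a3 a4
  | par k t s =>
    simp only [cl] at hz hz'
    by_cases hm : D.g k t ≠ 0 ∧ ∀ m, D.mu k ≤ m → m < D.mu (k + 1) → t ∉ D.T k m
    · rw [if_pos hm] at hz hz'
      have h24 : (24 : ℝ) ≤ d (D.b (D.mu 0)) := by
        have h1 := D.len (D.mu 0)
        have h2 : D.b (D.mu 0) + 2 ≤ D.b (D.mu 0 + 2) := by
          have h3 := D.hb (Nat.lt_succ_self (D.mu 0))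
          have h4 := D.hb (Nat.lt_succ_self (D.mu 0 + 1))
          have h5 : D.b (D.mu 0).succ = D.b (D.mu 0 + 1) := rfl
          have h6 : D.b (D.mu 0 + 1).succ = D.b (D.mu 0 + 2) := rfl
          omega
        have h3 : (D.b (D.mu 0) : ℝ) + 2 ≤ D.b (D.mu 0 + 2) := by exact_mod_cast h2
        linarith
      have hb0 : D.b (D.mu 0) ≤ D.b (D.mu k) := D.hb.monotone (D.hmu.monotone (Nat.zero_le k))
      have key : ∀ z, z ∈ ({pt k t 0 s, pt k t 1 s} : Finset ℤ) → D.b (D.mu 0) ≤ z.natAbs ∧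
          pt k t 0 s ≤ z ∧ z ≤ pt k t 0 s + 6 := by
        intro z hz
        have e : pt k t 1 s = pt k t 0 s + 6 := by
          unfold pt
          ring
        rcases Finset.mem_insert.1 hz with h1 | h1
        · have h2 := (hP1 k t 0 s hm.1 (Or.inl rfl)).1
          rw [← h1, Int.abs_eq_natAbs] at h2
          refine ⟨by omega, by omega, by omega⟩
        · have h1' := Finset.mem_singleton.1 h1
          have h2 := (hP1 k t 1 s hm.1 (Or.inr rfl)).1
          rw [← h1', Int.abs_eq_natAbs] at h2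
          refine ⟨by omega, by omega, by omega⟩
      obtain ⟨a1, a2, a3⟩ := key z hz
      obtain ⟨a4, a5, a6⟩ := key z' hz'
      have h5 : d (D.b (D.mu 0)) ≤ d (min z.natAbs z'.natAbs) := hd (le_min a1 a4)
      have h6 : |(z.natAbs : ℝ) - z'.natAbs| ≤ 6 := by
        have b1 : z.natAbs ≤ z'.natAbs + 6 := by omega
        have b2 : z'.natAbs ≤ z.natAbs + 6 := by omega
        have c1 : (z.natAbs : ℝ) ≤ z'.natAbs + 6 := by exact_mod_cast b1
        have c2 : (z'.natAbs : ℝ) ≤ z.natAbs + 6 := by exact_mod_cast b2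
        rw [abs_le]
        constructor <;> linarith
      linarith
    · rw [if_neg hm] at hz
      exact absurd hz (Finset.notMem_empty z)

end Pool.Agent.H51.ET
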